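import Pool.Agent.H.MP_3cd25e_lc.A
import Pool.Agent.H.MP_067fd8_lc.E

set_option autoImplicit false
set_option linter.unusedSimpArgs false
set_option linter.unusedVariables false

namespace Pool.Agent.Results.MP_3cd25e_lc.Undecidable

open List Sum

/-- A grammar: start symbol and list of productions; terminals on the left, nonterminals on the right. -/
abbrev Gram := ℕ × List (ℕ × List (ℕ ⊕ ℕ))

/-- The context-free grammar of Mathlib given by a code. -/
def toCFG (G : Gram) : ContextFreeGrammar ℕ :=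
  ⟨ℕ, G.1, (G.2.map fun r =>
    (⟨r.1, r.2.map (Sum.elim Symbol.terminal Symbol.nonterminal)⟩ : ContextFreeRule ℕ ℕ)).toFinset⟩

/-- No production has an empty right-hand side. -/
def LamFree (G : Gram) : Prop := ∀ r ∈ G.2, r.2 ≠ []

/-- `G'` is mapped letter to letter (nonterminals by `f`, terminals by `h`) into `G`, start to start. -/
def Interp (G' G : Gram) : Prop :=
  ∃ f h : ℕ → ℕ, f G'.1 = G.1 ∧ ∀ r ∈ G'.2, (f r.1, r.2.map (Sum.map h f)) ∈ G.2

/-- The grammatical family of `G`. -/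
def Fam (G : Gram) : Set (Language ℕ) := {L | ∃ G', Interp G' G ∧ L = (toCFG G').language}

open Pool.Agent.H.MP_3cd25e_lc Pool.Agent.H.MP_067fd8_lc Pool.Agent.Lib.helper21 PR CFG

attribute [local irreducible] Primrec Computable

theorem lang (G : Gram) : (toCFG G).language = Lg G := by
  let R : Set (ContextFreeRule ℕ ℕ) := fun r => r ∈ (toCFG G).rules
  refine Language.ext fun w => (mem_language_iff_gen ..).trans ⟨fun h => ?_, fun h => ?_⟩
  · suffices ∀ α w, Gen R α w → ∀ β : List (ℕ ⊕ ℕ),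
        α = β.map (Sum.elim .terminal .nonterminal) → Gn {r | r ∈ G.2} β w from this _ _ h [inr G.1] rfl
    intro _ _ h
    induction h with
    | nil => rintro (_ | _) ⟨⟩; exact .nil
    | ter _ _ ih => rintro (_ | ⟨_ | _, β⟩) ⟨⟩; exact .ter _ (ih β rfl)
    | nt a _ _ ih ih' =>
      obtain ⟨r, b, rfl⟩ := mem_map.1 (mem_toFinset.1 a)
      rintro (_ | ⟨_ | _, β⟩) ⟨⟩
      exact .nt b (ih _ rfl) (ih' β rfl)
  · suffices ∀ β w, Gn {r | r ∈ G.2} β w → Gen R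
        (β.map (Sum.elim .terminal .nonterminal)) w from this _ _ h
    intro _ _ h
    induction h with
    | nil => exact .nil
    | ter _ _ ih => exact .ter _ ih
    | nt a _ _ ih ih' => exact .nt (r := ⟨_, _⟩) (mem_toFinset.2 (mem_map.2 ⟨_, a, rfl⟩)) ih ih'

theorem tri {Z : Type} : ∀ a t : List Z, (∃ t', t = a ++ t') ∨ ∃ j < a.length, t = a.take j ∨
    ∃ b t', t = a.take j ++ b :: t' ∧ a[j]? ≠ some b
  | [], t => .inl ⟨t, rfl⟩
  | _ :: _, [] => .inr ⟨0, by simp, .inl rfl⟩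
  | x :: a, y :: t => by
    by_cases e : x = y
    · subst e
      obtain ⟨_, b⟩ | ⟨j, b, c | ⟨c, t', d, e⟩⟩ := tri a t
      exacts [.inl ⟨_, congrArg _ b⟩, .inr ⟨j + 1, by simpa, .inl (congrArg _ c)⟩,
        .inr ⟨j + 1, by simpa, .inr ⟨c, t', congrArg _ d, e⟩⟩]
    · exact .inr ⟨0, by simp, .inr ⟨y, t, rfl, by simpa⟩⟩

theorem one_app {R : Set (Rule ℕ)} {X w} (h : Gn R [inr X] w) (x : List ℕ) :
    Gn R (inr X :: x.map inl) (w ++ x) := by
  obtain _ | _ | ⟨a, b, ⟨⟩⟩ := h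
  simpa using Gn.nt a b (Gn.ters x .nil)

section
variable {I Z : Type} [DecidableEq Z] (LI : List I) (LZ : List Z) (ti : I → ℕ) (tz : Z → ℕ) (th : ℕ) (pre : List ℕ)

def Am (m : ℕ) (u : I → List Z) : List (Rule ℕ) := LI.flatMap fun i =>
  (m, inl (ti i) :: inr m :: ((u i).reverse.map tz).map inl) :: (range (u i).length).flatMap fun j =>
    (m, inl (ti i) :: inr 4 :: (((u i).take j).reverse.map tz).map inl) :: LZ.flatMap fun b =>
      if (u i)[j]? = some b then [] else [(m, inl (ti i) :: inr 3 :: (((u i).take j ++ [b]).reverse.map tz).map inl)]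

def R2 (u v : I → List Z) : List (Rule ℕ) :=
  (LI.flatMap fun i => [(3, [inl (ti i), inr 3]), (4, [inl (ti i), inr 4])]) ++
  (LZ.flatMap fun y => [(3, [inr 3, inl (tz y)]), (5, [inr 5, inl (tz y)]), (1, [inr 5, inl (tz y)]),
    (2, [inr 5, inl (tz y)])]) ++
  [(3, [inl th]), (4, [inl th]), (5, [inl th]), (0, pre.map inl ++ [inr 1]), (0, pre.map inl ++ [inr 2]),
    (0, pre.map inl ++ [inl th])] ++ Am LI LZ ti tz 1 u ++ Am LI LZ ti tz 2 v

def Ex : List (Rule ℕ) := (LI.map fun i => (6, [inl (ti i), inr 6])) ++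
  (LZ.flatMap fun y => [(7, [inl (tz y), inr 7]), (7, [inl (tz y)])]) ++ [(6, [inl th, inr 7]), (6, [inl th])]

def wn (s : List I) (t : List Z) : List ℕ := s.map ti ++ th :: t.reverse.map tz

variable {LI LZ ti tz th pre} {u v : I → List Z}

theorem cmp (hI : ∀ i, i ∈ LI) (hZ : ∀ y, y ∈ LZ) (s t) (h : ¬ (s ≠ [] ∧ t = s.flatMap u ∧ t = s.flatMap v)) :
    ∃ β, (0, pre.map inl ++ β) ∈ R2 LI LZ ti tz th pre u v ∧
      Gn {r | r ∈ R2 LI LZ ti tz th pre u v} β (wn ti tz th s t) := by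
  let R := {r | r ∈ R2 LI LZ ti tz th pre u v}
  have k5 : ∀ m, m = 3 ∨ m = 5 → ∀ t, Gn R [inr m] (wn ti tz th [] t) := fun m a t => by
    induction t with
    | nil => exact .one (by obtain rfl | rfl := a <;> simp [R, R2]) (.ter _ .nil)
    | cons y t ih => exact .one (β := [inr m, inl (tz y)]) (by
        obtain rfl | rfl := a <;> simp [R, R2] <;> exact .inl ⟨y, hZ y, rfl⟩) (by simpa [wn] using one_app ih [tz y])
  have k3 : ∀ m, m = 3 ∨ m = 4 → ∀ s t, Gn R [inr m] (wn ti tz th [] t) → Gn R [inr m] (wn ti tz th s t) :=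
    fun m a s t b => by
      induction s with
      | nil => exact b
      | cons i s ih => exact .one (β := [inl (ti i), inr m]) (by
          obtain rfl | rfl := a <;> simp [R, R2] <;> exact .inl ⟨i, hI i, rfl⟩) (.ter _ ih)
  have k4 : Gn R [inr 4] (wn ti tz th [] []) := .one (β := [inl th]) (by simp [R, R2]) (.ter _ .nil)
  have k6 := fun s t => k3 3 (.inl rfl) s t (k5 3 (.inl rfl) t)
  have k : ∀ m (u : I → List Z), (∀ r ∈ Am LI LZ ti tz m u, r ∈ R) → (∀ y, (m, [inr 5, inl (tz y)]) ∈ R) →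
      ∀ s t, t ≠ s.flatMap u → Gn R [inr m] (wn ti tz th s t) := fun m u a b s => by
    induction s with
    | nil =>
      rintro (_ | ⟨y, t⟩) c
      exacts [(c rfl).elim, .one (b y) (by simpa [wn] using one_app (k5 5 (.inr rfl) t) [tz y])]
    | cons i s ih =>
      intro t c
      obtain ⟨t, rfl⟩ | ⟨j, d, rfl | ⟨y, t, rfl, e⟩⟩ := tri (u i) t
      · exact .one (a _ (mem_flatMap.2 ⟨i, hI i, mem_cons_self⟩)) (.ter _ (by
          simpa [wn] using one_app (ih t fun e => c (by simp [e])) ((u i).reverse.map tz)))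
      · exact .one (a _ (mem_flatMap.2 ⟨i, hI i, mem_cons_of_mem _ (mem_flatMap.2 ⟨j, mem_range.2 d,
          mem_cons_self⟩)⟩)) (.ter _ (by
            simpa [wn] using one_app (k3 4 (.inr rfl) s [] k4) (((u i).take j).reverse.map tz)))
      · exact .one (a _ (mem_flatMap.2 ⟨i, hI i, mem_cons_of_mem _ (mem_flatMap.2 ⟨j, mem_range.2 d,
          mem_cons_of_mem _ (mem_flatMap.2 ⟨y, hZ y, by rw [if_neg e]; exact mem_cons_self⟩)⟩)⟩)) (.ter _ (by
            simpa [wn] using one_app (k6 s t) (((u i).take j ++ [y]).reverse.map tz)))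
  by_cases a : t = s.flatMap u
  · by_cases b : t = s.flatMap v
    · obtain rfl : s = [] := by_contra fun c => h ⟨c, a, b⟩
      exact ⟨[inl th], by simp [R2], a ▸ .ter _ .nil⟩
    · exact ⟨[inr 2], by simp [R2], k 2 v (fun r c => mem_append_right _ c)
        (fun y => by simp [R, R2]; exact .inl ⟨y, hZ y, rfl⟩) s t b⟩
  · exact ⟨[inr 1], by simp [R2], k 1 u (fun r c => mem_append_left _ (mem_append_right _ c))
      (fun y => by simp [R, R2]; exact .inl ⟨y, hZ y, rfl⟩) s t a⟩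

theorem snd {w} (h : Gn {r | r ∈ R2 LI LZ ti tz th pre u v} [inr 0] w) :
    ∃ s t, w = pre ++ wn ti tz th s t ∧ ¬ (s ≠ [] ∧ t = s.flatMap u ∧ t = s.flatMap v) := by
  let J : ℕ → List ℕ → Prop := fun X w => ∃ s t, w = (if X = 0 then pre else []) ++ wn ti tz th s t ∧
    (X = 0 → ¬ (s ≠ [] ∧ t = s.flatMap u ∧ t = s.flatMap v)) ∧ (X = 1 → t ≠ s.flatMap u) ∧
    (X = 2 → t ≠ s.flatMap v) ∧ (X = 4 → t = []) ∧ (X = 5 → s = [])
  have k : ∀ m (u : I → List Z), m ≠ 0 → (∀ w, J m w → ∃ s t, w = wn ti tz th s t ∧ t ≠ s.flatMap u) →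
      ∀ r ∈ Am LI LZ ti tz m u, ∀ w, Sm J r.2 w → r.1 = m ∧ ∃ s t, w = wn ti tz th s t ∧ t ≠ s.flatMap u := by
    intro m u _ a r b w c
    simp only [Am, mem_flatMap, mem_cons, mem_range, mem_ite_nil_left, not_mem_nil, or_false] at b
    obtain ⟨i, -, rfl | ⟨j, d, rfl | ⟨y, -, e, rfl⟩⟩⟩ := b <;> obtain ⟨_, rfl, _, _, rfl, g, g'⟩ := c <;>
      obtain ⟨_, rfl, rfl⟩ := (sm_ters (l := [])).1 (by rwa [append_nil]) <;> refine ⟨rfl, ?_⟩
    · obtain ⟨s, t, rfl, g⟩ := a _ g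
      exact ⟨i :: s, u i ++ t, by simp [wn], by simpa⟩
    · obtain ⟨s, t, rfl, -, -, -, g, -⟩ := g
      refine ⟨i :: s, (u i).take j, by simp [wn, g], fun q => ?_⟩
      have := congrArg length q
      simp at this; omega
    · obtain ⟨s, t, rfl, -⟩ := g
      refine ⟨i :: s, (u i).take j ++ y :: t, by simp [wn], fun q => e ?_⟩
      have := congrArg (·[j]?) q
      simpa [getElem?_append, d, d.le, eq_comm] using this
  obtain ⟨_, _, rfl, ⟨s, t, rfl, a, -⟩, rfl⟩ := h.sound (I := J) (by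
    intro r a w b
    simp only [R2, Set.mem_setOf_eq, mem_append, mem_flatMap, mem_cons, not_mem_nil, or_false] at a
    obtain (((⟨i, -, rfl | rfl⟩ | ⟨y, -, rfl | rfl | rfl | rfl⟩) | rfl | rfl | rfl | rfl | rfl | rfl) | a) | a := a
    iterate 2
      obtain ⟨_, rfl, _, _, rfl, ⟨s, t, rfl, c⟩, rfl⟩ := b
      exact ⟨i :: s, t, by simp [wn], by simpa using c⟩
    iterate 4
      obtain ⟨_, _, rfl, ⟨s, t, rfl, c⟩, _, rfl, rfl⟩ := b
      exact ⟨s, y :: t, by simp [wn], by simp_all⟩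
    iterate 3
      obtain ⟨_, rfl, rfl⟩ := b
      exact ⟨[], [], rfl, by simp⟩
    iterate 2
      obtain ⟨_, rfl, _, _, rfl, ⟨s, t, rfl, c⟩, rfl⟩ := sm_ters.1 b
      exact ⟨s, t, by simp, by simp at c ⊢; tauto⟩
    · obtain ⟨_, rfl, _, rfl, rfl⟩ := sm_ters.1 b
      exact ⟨[], [], rfl, by simp⟩
    · obtain ⟨c, s, t, rfl, d⟩ := k 1 u nofun (fun _ ⟨s, t, c, d⟩ => ⟨s, t, c, d.2.1 rfl⟩) r a w b
      exact ⟨s, t, by simp [c], by simp [c, d]⟩
    · obtain ⟨c, s, t, rfl, d⟩ := k 2 v nofun (fun _ ⟨s, t, c, d⟩ => ⟨s, t, c, d.2.2.1 rfl⟩) r a w b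
      exact ⟨s, t, by simp [c], by simp [c, d]⟩)
  exact ⟨s, t, by simp, a rfl⟩

theorem low : ∀ r ∈ R2 LI LZ ti tz th pre u v, r.2 ≠ [] ∧ r.1 ∉ ({6, 7} : Set ℕ) ∧
    ∀ Y, inr Y ∈ r.2 → Y ∉ ({6, 7} : Set ℕ) := by
  intro r a
  simp only [R2, Am, mem_append, mem_flatMap, mem_cons, not_mem_nil, or_false, mem_range, mem_ite_nil_left] at a
  obtain (((⟨i, -, rfl | rfl⟩ | ⟨y, -, rfl | rfl | rfl | rfl⟩) | rfl | rfl | rfl | rfl | rfl | rfl) |
    ⟨i, -, rfl | ⟨j, d, rfl | ⟨y, -, e, rfl⟩⟩⟩) | ⟨i, -, rfl | ⟨j, d, rfl | ⟨y, -, e, rfl⟩⟩⟩ := a <;> simp [-map_take]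

theorem high : ∀ r ∈ Ex LI LZ ti tz th, r.1 ∈ ({6, 7} : Set ℕ) ∧ ∃ a, ∃ q : Option ℕ,
    (∀ Y ∈ q, Y ∈ ({6, 7} : Set ℕ)) ∧ r.2 = inl a :: q.toList.map inr := by
  intro r a
  simp only [Ex, mem_append, mem_flatMap, mem_map, mem_cons, not_mem_nil, or_false] at a
  obtain (⟨i, -, rfl⟩ | ⟨y, -, rfl | rfl⟩) | rfl | rfl := a
  exacts [⟨by simp, _, some 6, by simp, rfl⟩, ⟨by simp, _, some 7, by simp, rfl⟩, ⟨by simp, _, none, by simp, rfl⟩,
    ⟨by simp, _, some 7, by simp, rfl⟩, ⟨by simp, _, none, by simp, rfl⟩]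

theorem shape (hI : ∀ i, i ∈ LI) (hZ : ∀ y, y ∈ LZ) (w) : Gn {r | r ∈ (0, pre.map inl ++ [inr 6]) ::
    (Ex LI LZ ti tz th ++ R2 LI LZ ti tz th pre u v)} [inr 6] w ↔ ∃ s t, w = wn ti tz th s t := by
  constructor
  · intro h
    obtain ⟨_, _, rfl, a, rfl⟩ := h.sound (I := fun X w => (X = 6 → ∃ s t, w = wn ti tz th s t) ∧
        (X = 7 → ∃ t : List Z, w = t.reverse.map tz)) (by
      rintro r (_ | ⟨_, a⟩) w b
      · simp
      obtain a | a := mem_append.1 a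
      · simp only [Ex, mem_append, mem_flatMap, mem_map, mem_cons, not_mem_nil, or_false] at a
        obtain (⟨i, -, rfl⟩ | ⟨y, -, rfl | rfl⟩) | rfl | rfl := a
        · obtain ⟨_, rfl, _, _, rfl, c, rfl⟩ := b
          obtain ⟨s, t, rfl⟩ := c.1 rfl
          exact ⟨fun _ => ⟨i :: s, t, by simp [wn]⟩, nofun⟩
        · obtain ⟨_, rfl, _, _, rfl, c, rfl⟩ := b
          obtain ⟨t, rfl⟩ := c.2 rfl
          exact ⟨nofun, fun _ => ⟨t ++ [y], by simp⟩⟩
        · obtain ⟨_, rfl, rfl⟩ := b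
          exact ⟨nofun, fun _ => ⟨[y], rfl⟩⟩
        · obtain ⟨_, rfl, _, _, rfl, c, rfl⟩ := b
          obtain ⟨t, rfl⟩ := c.2 rfl
          exact ⟨fun _ => ⟨[], t, by simp [wn]⟩, nofun⟩
        · obtain ⟨_, rfl, rfl⟩ := b
          exact ⟨fun _ => ⟨[], [], rfl⟩, nofun⟩
      · have := (low r a).2.1
        simp at this; simp [this])
    simpa using a.1 rfl
  · rintro ⟨s, t, rfl⟩
    induction s with
    | cons i s ih => exact .one (β := [inl (ti i), inr 6]) (by simp [Ex]; exact .inl ⟨i, hI i, rfl⟩) (.ter _ ih)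
    | nil =>
      rw [wn]
      generalize t.reverse = z
      obtain _ | ⟨y, z⟩ := z
      · exact .one (by simp [Ex]) (.ter _ .nil)
      refine .one (β := [inl th, inr 7]) (by simp [Ex]) (.ter _ ?_)
      induction z generalizing y with
      | nil => exact .one (β := [inl (tz y)]) (by simp [Ex]; exact .inl ⟨y, hZ y, rfl⟩) (.ter _ .nil)
      | cons y' z ih =>
        exact .one (β := [inl (tz y), inr 7]) (by simp [Ex]; exact .inl ⟨y, hZ y, rfl⟩) (.ter _ (ih y'))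
end

theorem result : ¬ ∃ P : Gram × Gram → Prop, ComputablePred P ∧
    ∀ G₁ G₂, LamFree G₁ → LamFree G₂ → (P (G₁, G₂) ↔ Fam G₁ = Fam G₂) := by
  classical
  rintro ⟨P, hP, h⟩
  obtain ⟨I, Z, _, _, _, _, u, v, -, -, pv, un⟩ := undec
  obtain ⟨k, ⟨e⟩⟩ := Finite.exists_equiv_fin (Option (I ⊕ Z))
  have := Fintype.ofFinite I
  have := Fintype.ofFinite Z
  obtain ⟨LI, hI⟩ : ∃ L : List I, ∀ i, i ∈ L := ⟨Finset.univ.toList, by simp⟩
  obtain ⟨LZ, hZ⟩ : ∃ L : List Z, ∀ i, i ∈ L := ⟨Finset.univ.toList, by simp⟩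
  obtain ⟨ti, pi, hi⟩ : ∃ t : I → ℕ, Primrec t ∧ ∀ i, t i = e (some (inl i)) := ⟨_, .dom_finite _, fun _ => rfl⟩
  obtain ⟨tz, pz, hz⟩ : ∃ t : Z → ℕ, Primrec t ∧ ∀ i, t i = e (some (inr i)) := ⟨_, .dom_finite _, fun _ => rfl⟩
  have hw : ∀ s t, wn ti tz (e none) s t = (wd s t.reverse).map fun x => (e x).val := fun s t => by
    simp [wn, wd, ← hi, ← hz, Function.comp_def]
  let G2 := fun n => ((0, R2 LI LZ ti tz (e none) (range k) u (v n)) : Gram)
  let G1 := fun n => ((0, (0, (range k).map inl ++ [inr 6]) :: (Ex LI LZ ti tz (e none) ++ (G2 n).2)) : Gram)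
  have p2 : Primrec G2 := by
    obtain ⟨il, pl, hl⟩ : ∃ t : ℕ → ℕ ⊕ ℕ, Primrec t ∧ inl = t := ⟨_, .sumInl, rfl⟩
    unfold G2 R2
    refine p_pair (.const _) (p_append (.const _) ?_)
    unfold Am
    rw [hl]
    fun_prop
  obtain ⟨_, hP⟩ := hP
  have p1 : Computable fun n => (G1 n, G2 n) := by unfold G1; fun_prop
  refine un ((ComputablePred.not (p := fun n => P (G1 n, G2 n)) ⟨_, hP.comp p1⟩).of_eq fun n => ?_)
  rw [h (G1 n) (G2 n) (forall_mem_cons.2 ⟨by simp, forall_mem_append.2 ⟨fun r a => by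
    obtain ⟨-, _, _, -, b⟩ := high r a; simp [b], fun r a => (low r a).1⟩⟩) fun r a => (low r a).1]
  refine ⟨fun a => by_contra fun b => a (Set.Subset.antisymm ?_ ?_), fun ⟨s, a, b⟩ c => ?_⟩
  · rintro _ ⟨G', c, rfl⟩
    obtain ⟨G'', d, g⟩ := key (C := {6, 7}) (by simp) (by simp) (fun r a => (low r a).2) high (fun w a => by
      obtain ⟨s, t, rfl⟩ := (shape hI hZ w).1 a
      exact cmp hI hZ s t fun q => b ⟨s, q.1, q.2.1.symm.trans q.2.2⟩) c
    exact ⟨G'', d, by rw [lang, lang, g]⟩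
  · rintro _ ⟨G', ⟨f, g, c, d⟩, rfl⟩
    exact ⟨G', ⟨f, g, c, fun r q => mem_cons_of_mem _ (mem_append_right _ (d r q))⟩, rfl⟩
  · obtain ⟨G', ⟨f, g, d1, d2⟩, d3⟩ := c.subset ⟨G1 n, ⟨id, id, rfl, fun r q => by simpa using q⟩, rfl⟩
    rw [lang, lang] at d3
    have : range k ++ wn ti tz (e none) s (s.flatMap u) ∈ Lg G' :=
      d3 ▸ Gn.one mem_cons_self (.ters _ ((shape hI hZ _).2 ⟨_, _, rfl⟩))
    have := this.map (R' := {r | r ∈ (G2 n).2}) f g d2
    rw [map_singleton, Sum.map_inr, d1] at this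
    obtain ⟨s', t', q, q'⟩ := snd this
    rw [map_append] at q
    obtain ⟨q1, q2⟩ := append_inj q (by simp)
    rw [hw, hw, List.map_map, show g ∘ (fun x => (e x).val) = fun x => (e x).val from funext fun x => by
      simpa using congrArg (·[(e x).val]?) q1] at q2
    obtain ⟨rfl, q3⟩ := wd_inj ((List.map_inj_right fun _ _ q => e.injective (Fin.ext q)).1 q2)
    exact q' ⟨a, (reverse_injective q3).symm, (reverse_injective q3).symm.trans b⟩

end Pool.Agent.Results.MP_3cd25e_lc.Undecidable
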